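import Mathlib

/-!
No Sierpiński space `X_f` contains an isometric copy of `ℓ₁ ⊕₀ ℓ₁` or of `c₀ ⊕₁ c₀`.

`X_f` is the completion of the finitely supported sequences in the norm given by the cliques, that
is by the finite sets on which `f` is increasing. Differences of the unit vectors of the
two summands are approximated by successive finitely supported vectors, and the heights `f(i)` of
norming cliques are compared.
-/

set_option autoImplicit false

open Filter Topology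

namespace Pool.Agent.Results.MP_adcce9_an.NoIsometricCopies

/-- `C` is a clique: `f` is increasing on `C`. -/
def IsClique (f : ℕ → ℚ) (C : Finset ℕ) : Prop := ∀ n ∈ C, ∀ m ∈ C, n < m → f n < f m

/-- Finitely supported sequences. -/
def C00 (𝕜 : Type) [RCLike 𝕜] (_ : ℕ → ℚ) : Type := ℕ →₀ 𝕜

section
variable {𝕜 : Type} [RCLike 𝕜] {f : ℕ → ℚ}

noncomputable instance : AddCommGroup (C00 𝕜 f) :=
  (Finsupp.instAddCommGroup : AddCommGroup (ℕ →₀ 𝕜))

noncomputable instance : Module 𝕜 (C00 𝕜 f) := (Finsupp.module ℕ 𝕜 : Module 𝕜 (ℕ →₀ 𝕜))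

/-- The coordinates. -/
def co (x : C00 𝕜 f) (i : ℕ) : 𝕜 := Finsupp.instFunLike.coe (x : ℕ →₀ 𝕜) i

/-- The support. -/
def supp (x : C00 𝕜 f) : Finset ℕ := Finsupp.support (x : ℕ →₀ 𝕜)

/-- The norm: the supremum over all cliques `C` of the sums of `|x(i)|` over `C`. -/
noncomputable instance : Norm (C00 𝕜 f) :=
  ⟨fun x => ⨆ C : {C : Finset ℕ // IsClique f C}, ∑ i ∈ C.1, ‖co x i‖⟩

lemma norm_def (x : C00 𝕜 f) :
    ‖x‖ = ⨆ C : {C : Finset ℕ // IsClique f C}, ∑ i ∈ C.1, ‖co x i‖ := rfl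

lemma co_add (x y : C00 𝕜 f) (i : ℕ) : co (x + y) i = co x i + co y i := rfl

lemma co_smul (c : 𝕜) (x : C00 𝕜 f) (i : ℕ) : co (c • x) i = c * co x i := rfl

lemma co_zero (i : ℕ) : co (0 : C00 𝕜 f) i = 0 := rfl

lemma co_eq_zero {x : C00 𝕜 f} {i : ℕ} (h : i ∉ supp x) : co x i = 0 :=
  Finsupp.notMem_support_iff.1 h

lemma co_ne_zero {x : C00 𝕜 f} {i : ℕ} (h : i ∈ supp x) : co x i ≠ 0 :=
  Finsupp.mem_support_iff.1 h

lemma sum_le_supp (x : C00 𝕜 f) (C : Finset ℕ) :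
    ∑ i ∈ C, ‖co x i‖ ≤ ∑ i ∈ supp x, ‖co x i‖ := by
  have h : ∑ i ∈ C, ‖co x i‖ = ∑ i ∈ C.filter (· ∈ supp x), ‖co x i‖ := by
    rw [Finset.sum_filter_of_ne]
    intro i _ hi
    by_contra hcon
    exact hi (by rw [co_eq_zero hcon, norm_zero])
  rw [h]
  exact Finset.sum_le_sum_of_subset_of_nonneg (fun i hi => (Finset.mem_filter.1 hi).2)
    fun _ _ _ => norm_nonneg _

lemma bdd (x : C00 𝕜 f) :
    BddAbove (Set.range fun C : {C : Finset ℕ // IsClique f C} => ∑ i ∈ C.1, ‖co x i‖) :=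
  ⟨∑ i ∈ supp x, ‖co x i‖, by rintro _ ⟨C, rfl⟩; exact sum_le_supp x C.1⟩

lemma clique_le (x : C00 𝕜 f) {C : Finset ℕ} (hC : IsClique f C) : ∑ i ∈ C, ‖co x i‖ ≤ ‖x‖ :=
  le_ciSup (bdd x) ⟨C, hC⟩

lemma clique_empty : IsClique f ∅ := fun n hn => absurd hn (Finset.notMem_empty n)

lemma clique_single (i : ℕ) : IsClique f {i} := by
  intro n hn m hm h
  rw [Finset.mem_singleton.1 hn, Finset.mem_singleton.1 hm] at h
  exact absurd h (lt_irrefl i)

instance : Nonempty {C : Finset ℕ // IsClique f C} := ⟨⟨∅, clique_empty⟩⟩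

lemma norm_le {x : C00 𝕜 f} {c : ℝ} (h : ∀ C, IsClique f C → ∑ i ∈ C, ‖co x i‖ ≤ c) : ‖x‖ ≤ c :=
  ciSup_le fun C => h C.1 C.2

lemma exists_clique (x : C00 𝕜 f) {c : ℝ} (h : c < ‖x‖) :
    ∃ C, IsClique f C ∧ c < ∑ i ∈ C, ‖co x i‖ := by
  obtain ⟨C, hC⟩ := exists_lt_of_lt_ciSup h
  exact ⟨C.1, C.2, hC⟩

lemma co_le_norm (x : C00 𝕜 f) (i : ℕ) : ‖co x i‖ ≤ ‖x‖ := by
  have := clique_le x (clique_single (f := f) i)
  simpa using this

lemma core : NormedSpace.Core 𝕜 (C00 𝕜 f) where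
  norm_nonneg x := by
    have := clique_le x (clique_empty (f := f))
    simpa using this
  norm_smul c x := by
    rw [norm_def, norm_def, Real.mul_iSup_of_nonneg (norm_nonneg c)]
    congr 1
    funext C
    rw [Finset.mul_sum]
    refine Finset.sum_congr rfl fun i _ => ?_
    rw [co_smul, norm_mul]
  norm_triangle x y := by
    refine norm_le fun C hC => ?_
    calc ∑ i ∈ C, ‖co (x + y) i‖ ≤ ∑ i ∈ C, (‖co x i‖ + ‖co y i‖) :=
          Finset.sum_le_sum fun i _ => by rw [co_add]; exact norm_add_le _ _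
      _ = ∑ i ∈ C, ‖co x i‖ + ∑ i ∈ C, ‖co y i‖ := Finset.sum_add_distrib
      _ ≤ ‖x‖ + ‖y‖ := add_le_add (clique_le x hC) (clique_le y hC)
  norm_eq_zero_iff x := by
    constructor
    · intro h
      refine Finsupp.ext fun i => ?_
      have := co_le_norm x i
      rw [h] at this
      exact norm_le_zero_iff.1 this
    · rintro rfl
      rw [norm_def]
      simp [co_zero]

noncomputable instance : NormedAddCommGroup (C00 𝕜 f) := NormedAddCommGroup.ofCore core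

noncomputable instance : NormedSpace 𝕜 (C00 𝕜 f) := NormedSpace.ofCore core

end

/-- The Sierpiński space `X_f`, over the scalars `𝕜`. -/
abbrev Sierpinski (𝕜 : Type) [RCLike 𝕜] (f : ℕ → ℚ) : Type :=
  UniformSpace.Completion (C00 𝕜 f)

section
variable {𝕜 : Type} [RCLike 𝕜] {f : ℕ → ℚ}

/-- `x` lives before `y`. -/
def Before (x y : C00 𝕜 f) : Prop := ∀ i ∈ supp x, ∀ j ∈ supp y, i < j

lemma clique_subset {A B : Finset ℕ} (hB : IsClique f B) (h : A ⊆ B) : IsClique f A :=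
  fun n hn m hm => hB n (h hn) m (h hm)

/-- Two cliques at increasing heights can be joined. -/
lemma join {u v : C00 𝕜 f} (huv : Before u v) {A B : Finset ℕ} (hA : IsClique f A)
    (hB : IsClique f B) (hAu : A ⊆ supp u) (hBv : B ⊆ supp v) (h : ∀ i ∈ A, ∀ j ∈ B, f i < f j) :
    ∑ i ∈ A, ‖co u i‖ + ∑ j ∈ B, ‖co v j‖ ≤ ‖u + v‖ := by
  have hdis : Disjoint A B := by
    rw [Finset.disjoint_left]
    intro i hi hj
    exact lt_irrefl i (huv i (hAu hi) i (hBv hj))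
  have hcl : IsClique f (A ∪ B) := by
    intro n hn m hm hnm
    rcases Finset.mem_union.1 hn with hn | hn <;> rcases Finset.mem_union.1 hm with hm | hm
    · exact hA n hn m hm hnm
    · exact h n hn m hm
    · exact absurd (huv m (hAu hm) n (hBv hn)) (not_lt.2 hnm.le)
    · exact hB n hn m hm hnm
  refine le_trans (le_of_eq ?_) (clique_le (u + v) hcl)
  rw [Finset.sum_union hdis]
  congr 1
  · refine Finset.sum_congr rfl fun i hi => ?_
    have : co v i = 0 := co_eq_zero fun hcon => lt_irrefl i (huv i (hAu hi) i hcon)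
    rw [co_add, this, add_zero]
  · refine Finset.sum_congr rfl fun j hj => ?_
    have : co u j = 0 := co_eq_zero fun hcon => lt_irrefl j (huv j hcon j (hBv hj))
    rw [co_add, this, zero_add]

lemma sum_filter_supp (x : C00 𝕜 f) (C : Finset ℕ) :
    ∑ i ∈ C, ‖co x i‖ = ∑ i ∈ C.filter (· ∈ supp x), ‖co x i‖ := by
  rw [Finset.sum_filter_of_ne]
  intro i _ hi
  by_contra hcon
  exact hi (by rw [co_eq_zero hcon, norm_zero])

/-- A clique norming the sum of two successive vectors. -/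
lemma extract {u w : C00 𝕜 f} (h : Before u w) {δ : ℝ} (hδ : 0 < δ) (hδ1 : δ < 1 / 3)
    (hu : ‖u‖ ≤ 1 + δ) (hw : ‖w‖ ≤ 1 + δ) (huw : 2 - δ < ‖u + w‖) :
    ∃ (A A' : Finset ℕ) (r : ℚ), IsClique f A ∧ IsClique f A' ∧ A ⊆ supp u ∧ A' ⊆ supp w ∧
      (∀ i ∈ A, f i < r) ∧ (∀ j ∈ A', r ≤ f j) ∧
      1 - 2 * δ < ∑ i ∈ A, ‖co u i‖ ∧ 1 - 2 * δ < ∑ j ∈ A', ‖co w j‖ := by
  obtain ⟨C, hC, hCs⟩ := exists_clique _ huw
  have h1 : ∑ i ∈ C, ‖co (u + w) i‖ ≤ ∑ i ∈ C, ‖co u i‖ + ∑ i ∈ C, ‖co w i‖ := by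
    rw [← Finset.sum_add_distrib]
    exact Finset.sum_le_sum fun i _ => by rw [co_add]; exact norm_add_le _ _
  have h2 := (clique_le u hC).trans hu
  have h3 := (clique_le w hC).trans hw
  have h4 : 1 - 2 * δ < ∑ i ∈ C.filter (· ∈ supp u), ‖co u i‖ := by
    rw [← sum_filter_supp]
    linarith
  have h5 : 1 - 2 * δ < ∑ i ∈ C.filter (· ∈ supp w), ‖co w i‖ := by
    rw [← sum_filter_supp]
    linarith
  have hne : (C.filter (· ∈ supp w)).Nonempty := by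
    by_contra hcon
    rw [Finset.not_nonempty_iff_eq_empty] at hcon
    rw [hcon, Finset.sum_empty] at h5
    linarith
  refine ⟨C.filter (· ∈ supp u), C.filter (· ∈ supp w),
    f ((C.filter (· ∈ supp w)).min' hne), clique_subset hC (Finset.filter_subset _ _),
    clique_subset hC (Finset.filter_subset _ _), fun i hi => (Finset.mem_filter.1 hi).2,
    fun i hi => (Finset.mem_filter.1 hi).2, ?_, ?_, h4, h5⟩
  · intro i hi
    have hm := Finset.min'_mem _ hne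
    rw [Finset.mem_filter] at hi hm
    exact hC i hi.1 _ hm.1 (h i hi.2 _ hm.2)
  · intro j hj
    have hm := Finset.min'_mem _ hne
    have hle := Finset.min'_le _ j hj
    rw [Finset.mem_filter] at hj hm
    rcases hle.eq_or_lt with heq | hlt
    · rw [heq]
    · exact (hC _ hm.1 j hj.1 hlt).le

/-- The contradiction for the first question. -/
lemma no_q1 {u v w : C00 𝕜 f} (huv : Before u v) (hvw : Before v w) (huw : Before u w)
    (hu : ‖u‖ ≤ 1 + 1 / 20) (hw : ‖w‖ ≤ 1 + 1 / 20) (h1 : ‖u + v‖ ≤ 1 + 1 / 20)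
    (h2 : ‖v + w‖ ≤ 1 + 1 / 20) (hv : 1 - 1 / 20 < ‖v‖) (h3 : 2 - 1 / 20 < ‖u + w‖) : False := by
  obtain ⟨A, A', r, hA, hA', hAu, hAw, hr, hr', hm, hm'⟩ :=
    extract huw (by norm_num) (by norm_num) hu hw h3
  obtain ⟨B, hB, hBs⟩ := exists_clique _ hv
  rw [sum_filter_supp] at hBs
  set B' := B.filter (· ∈ supp v) with hB'
  have hBc : IsClique f B' := clique_subset hB (Finset.filter_subset _ _)
  have hBv : B' ⊆ supp v := fun i hi => (Finset.mem_filter.1 hi).2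
  have e1 := join huv hA (clique_subset hBc (Finset.filter_subset (fun j => r ≤ f j) B')) hAu
    ((Finset.filter_subset _ _).trans hBv)
    (fun i hi j hj => (hr i hi).trans_le (Finset.mem_filter.1 hj).2)
  have e2 := join hvw (clique_subset hBc (Finset.filter_subset (fun j => ¬ r ≤ f j) B')) hA'
    ((Finset.filter_subset _ _).trans hBv) hAw
    (fun i hi j hj => (not_le.1 (Finset.mem_filter.1 hi).2).trans_le (hr' j hj))
  have e3 := Finset.sum_filter_add_sum_filter_not B' (fun j => r ≤ f j) (fun i => ‖co v i‖)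
  linarith

/-- The contradiction for the second question. -/
lemma no_q2 {u v w y : C00 𝕜 f} (huw : Before u w) (huy : Before u y) (hvw : Before v w)
    (hvy : Before v y)
    (hu : ‖u‖ ≤ 1 + 1 / 20) (hv : ‖v‖ ≤ 1 + 1 / 20) (hw : ‖w‖ ≤ 1 + 1 / 20)
    (hy : ‖y‖ ≤ 1 + 1 / 20) (h1 : ‖u + w‖ ≤ 1 + 1 / 20)
    (h2 : ‖v + y‖ ≤ 1 + 1 / 20) (h3 : 2 - 1 / 20 < ‖u + y‖) (h4 : 2 - 1 / 20 < ‖v + w‖) :
    False := by
  obtain ⟨A, A', r, hA, hA', hAu, hAy, hr, hr', hm, hm'⟩ :=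
    extract huy (by norm_num) (by norm_num) hu hy h3
  obtain ⟨B, B', s, hB, hB', hBv, hBw, hs, hs', hn, hn'⟩ :=
    extract hvw (by norm_num) (by norm_num) hv hw h4
  rcases le_or_gt r s with hrs | hrs
  · have := join huw hA hB' hAu hBw (fun i hi j hj => (hr i hi).trans_le (hrs.trans (hs' j hj)))
    linarith
  · have := join hvy hB hA' hBv hAy (fun i hi j hj => ((hs i hi).trans hrs).trans_le (hr' j hj))
    linarith

/-! ### Gliding hump -/

/-- Cutting off the first coordinates. -/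
noncomputable def tail (N : ℕ) (x : C00 𝕜 f) : C00 𝕜 f :=
  (Finsupp.filter (fun i => N ≤ i) (x : ℕ →₀ 𝕜) : ℕ →₀ 𝕜)

lemma co_tail (N : ℕ) (x : C00 𝕜 f) (i : ℕ) : co (tail N x) i = if N ≤ i then co x i else 0 :=
  Finsupp.filter_apply _ _ _

lemma le_of_mem_supp_tail {N : ℕ} {x : C00 𝕜 f} {i : ℕ} (h : i ∈ supp (tail N x)) : N ≤ i := by
  have := co_ne_zero h
  rw [co_tail] at this
  by_contra hcon
  exact this (if_neg hcon)

lemma norm_sub_tail_le (N : ℕ) (x : C00 𝕜 f) (ε : ℝ) (hε : 0 ≤ ε)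
    (h : ∀ i < N, ‖co x i‖ ≤ ε) : ‖x - tail N x‖ ≤ N * ε := by
  refine norm_le fun C _ => ?_
  have h1 : ∀ i, ‖co (x - tail N x) i‖ = if i < N then ‖co x i‖ else 0 := by
    intro i
    have : co (x - tail N x) i = co x i - co (tail N x) i := rfl
    rw [this, co_tail]
    by_cases hi : i < N
    · rw [if_neg (not_le.2 hi), if_pos hi, sub_zero]
    · rw [if_pos (not_lt.1 hi), if_neg hi, sub_self, norm_zero]
  simp only [h1]
  rw [← Finset.sum_filter]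
  calc ∑ i ∈ C.filter (· < N), ‖co x i‖ ≤ ∑ i ∈ C.filter (· < N), ε :=
        Finset.sum_le_sum fun i hi => h i (Finset.mem_filter.1 hi).2
    _ = (C.filter (· < N)).card * ε := by rw [Finset.sum_const, nsmul_eq_mul]
    _ ≤ N * ε := by
        gcongr
        calc (C.filter (· < N)).card ≤ (Finset.range N).card :=
              Finset.card_le_card fun i hi => Finset.mem_range.2 (Finset.mem_filter.1 hi).2
          _ = N := Finset.card_range N

/-- Differences of the terms of a bounded sequence are approximated by finitely supported vectors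
living far out. -/
lemma gliding (a : ℕ → Sierpinski 𝕜 f) (ha : ∀ n, ‖a n‖ ≤ 1) (c : 𝕜) (hc : ‖c‖ ≤ 1)
    (N K : ℕ) : ∃ k l, K ≤ k ∧ k < l ∧ ∃ d : C00 𝕜 f, (∀ i ∈ supp d, N ≤ i) ∧
      ‖(d : Sierpinski 𝕜 f) - c • (a k - a l)‖ < 1 / 80 := by
  have happ : ∀ n, ∃ z : C00 𝕜 f, ‖(z : Sierpinski 𝕜 f) - a n‖ < 1 / 320 := by
    intro n
    obtain ⟨z, hz⟩ := UniformSpace.Completion.denseRange_coe.exists_dist_lt (a n)
      (by norm_num : (0 : ℝ) < 1 / 320)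
    refine ⟨z, ?_⟩
    rw [dist_comm, dist_eq_norm] at hz
    exact hz
  choose z hz using happ
  have hzb : ∀ n, ‖z n‖ ≤ 2 := by
    intro n
    have h1 : ‖(z n : Sierpinski 𝕜 f)‖ ≤ ‖(z n : Sierpinski 𝕜 f) - a n‖ + ‖a n‖ := by
      have := norm_add_le ((z n : Sierpinski 𝕜 f) - a n) (a n)
      rwa [sub_add_cancel] at this
    rw [UniformSpace.Completion.norm_coe] at h1
    linarith [hz n, ha n]
  let y : ℕ → (Fin N → 𝕜) := fun n i => co (z (K + n)) i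
  have hy : ∀ n, y n ∈ Metric.closedBall (0 : Fin N → 𝕜) 2 := by
    intro n
    rw [mem_closedBall_zero_iff, pi_norm_le_iff_of_nonneg (by norm_num)]
    exact fun i => (co_le_norm _ _).trans (hzb _)
  obtain ⟨y₀, -, φ, hφ, hlim⟩ := (isCompact_closedBall (0 : Fin N → 𝕜) 2).tendsto_subseq hy
  have hcau := hlim.cauchySeq
  rw [Metric.cauchySeq_iff] at hcau
  have hε : (0 : ℝ) < 1 / (320 * (N + 1)) := by positivity
  obtain ⟨M, hM⟩ := hcau _ hε
  have h1 := hM M le_rfl (M + 1) (Nat.le_succ M)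
  set k := K + φ M with hk
  set l := K + φ (M + 1) with hl
  have hkl : k < l := by
    have := hφ (show M < M + 1 by omega)
    omega
  let x : C00 𝕜 f := c • (z k - z l)
  have hx : ∀ i < N, ‖co x i‖ ≤ 1 / (320 * (N + 1)) := by
    intro i hi
    have e1 : co x i = c * (co (z k) i - co (z l) i) := rfl
    rw [e1, norm_mul]
    have e2 : ‖co (z k) i - co (z l) i‖ ≤ 1 / (320 * (N + 1)) := by
      rw [dist_eq_norm] at h1
      exact (norm_le_pi_norm ((y ∘ φ) M - (y ∘ φ) (M + 1)) ⟨i, hi⟩).trans h1.le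
    calc ‖c‖ * ‖co (z k) i - co (z l) i‖ ≤ 1 * (1 / (320 * (N + 1))) := by gcongr
      _ = _ := one_mul _
  refine ⟨k, l, by omega, hkl, tail N x, fun i hi => le_of_mem_supp_tail hi, ?_⟩
  have h2 : ‖x - tail N x‖ ≤ 1 / 320 := by
    refine (norm_sub_tail_le N x _ hε.le hx).trans ?_
    rw [mul_one_div, div_le_div_iff₀ (by positivity) (by norm_num)]
    nlinarith
  have h3 : ((tail N x : C00 𝕜 f) : Sierpinski 𝕜 f) - c • (a k - a l) =
      -((x - tail N x : C00 𝕜 f) : Sierpinski 𝕜 f) + c • ((z k : Sierpinski 𝕜 f) - a k)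
        - c • ((z l : Sierpinski 𝕜 f) - a l) := by
    simp only [x]
    rw [UniformSpace.Completion.coe_sub, UniformSpace.Completion.coe_smul,
      UniformSpace.Completion.coe_sub]
    simp only [smul_sub]
    abel
  have h4 : ‖c • ((z k : Sierpinski 𝕜 f) - a k)‖ ≤ 1 / 320 := by
    rw [norm_smul]
    calc ‖c‖ * _ ≤ 1 * (1 / 320) := by gcongr; exact (hz k).le
      _ = _ := one_mul _
  have h5 : ‖c • ((z l : Sierpinski 𝕜 f) - a l)‖ ≤ 1 / 320 := by
    rw [norm_smul]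
    calc ‖c‖ * _ ≤ 1 * (1 / 320) := by gcongr; exact (hz l).le
      _ = _ := one_mul _
  have h6 : ‖-((x - tail N x : C00 𝕜 f) : Sierpinski 𝕜 f)‖ ≤ 1 / 320 := by
    rw [norm_neg, UniformSpace.Completion.norm_coe]
    exact h2
  rw [h3]
  refine (norm_sub_le _ _).trans_lt ?_
  have h7 := norm_add_le (-((x - tail N x : C00 𝕜 f) : Sierpinski 𝕜 f))
    (c • ((z k : Sierpinski 𝕜 f) - a k))
  linarith

/-- Bounds for the approximants. -/
lemma approx_le {d : C00 𝕜 f} {x : Sierpinski 𝕜 f} {ε M : ℝ}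
    (h : ‖(d : Sierpinski 𝕜 f) - x‖ < ε) (hx : ‖x‖ ≤ M) : ‖d‖ ≤ M + ε := by
  rw [← UniformSpace.Completion.norm_coe]
  have := norm_add_le ((d : Sierpinski 𝕜 f) - x) x
  rw [sub_add_cancel] at this
  linarith

lemma approx_ge {d : C00 𝕜 f} {x : Sierpinski 𝕜 f} {ε M : ℝ}
    (h : ‖(d : Sierpinski 𝕜 f) - x‖ < ε) (hx : M ≤ ‖x‖) : M - ε < ‖d‖ := by
  rw [← UniformSpace.Completion.norm_coe]
  have := norm_sub_norm_le x (d : Sierpinski 𝕜 f)
  rw [norm_sub_rev] at this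
  linarith

lemma approx_add {d d' : C00 𝕜 f} {x x' : Sierpinski 𝕜 f}
    (h : ‖(d : Sierpinski 𝕜 f) - x‖ < 1 / 80) (h' : ‖(d' : Sierpinski 𝕜 f) - x'‖ < 1 / 80) :
    ‖((d + d' : C00 𝕜 f) : Sierpinski 𝕜 f) - (x + x')‖ < 1 / 40 := by
  rw [UniformSpace.Completion.coe_add, add_sub_add_comm]
  refine (norm_add_le _ _).trans_lt ?_
  linarith

lemma before_of {d d' : C00 𝕜 f} {N : ℕ} (h : ∀ i ∈ supp d, i < N) (h' : ∀ i ∈ supp d', N ≤ i) :
    Before d d' := fun i hi j hj => (h i hi).trans_le (h' j hj)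

lemma exists_bound (d : C00 𝕜 f) (N : ℕ) : ∃ M, N ≤ M ∧ ∀ i ∈ supp d, i < M := by
  refine ⟨max N ((supp d).sup id + 1), le_max_left _ _, fun i hi => ?_⟩
  have := Finset.le_sup (f := id) hi
  simp only [id] at this
  exact lt_of_lt_of_le (Nat.lt_succ_of_le this) (le_max_right _ _)

/-- Sequences as in the first question do not exist. -/
lemma main1 (a b : ℕ → Sierpinski 𝕜 f) (ha : ∀ n, ‖a n‖ ≤ 1) (hb : ∀ n, ‖b n‖ ≤ 1)
    (h1 : ∀ k l k' l', k < l → l < k' → k' < l' →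
      2 ≤ ‖(1 / 2 : 𝕜) • (a k - a l) + (1 / 2 : 𝕜) • (a k' - a l')‖)
    (h2 : ∀ k l k' l', ‖(1 / 2 : 𝕜) • (a k - a l) + (1 / 2 : 𝕜) • (b k' - b l')‖ ≤ 1)
    (h3 : ∀ k l, k < l → 1 ≤ ‖(1 / 2 : 𝕜) • (b k - b l)‖) : False := by
  have hc : ‖(1 / 2 : 𝕜)‖ ≤ 1 := by
    rw [norm_div, norm_one, RCLike.norm_ofNat]
    norm_num
  have h1a : ∀ k l, ‖(1 / 2 : 𝕜) • (a k - a l)‖ ≤ 1 := by
    intro k l
    rw [norm_smul, norm_div, norm_one, RCLike.norm_ofNat]
    have := norm_sub_le (a k) (a l)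
    linarith [ha k, ha l]
  obtain ⟨k, l, -, hkl, u, hu, hu'⟩ := gliding a ha (1 / 2) hc 0 0
  obtain ⟨N, -, hN⟩ := exists_bound u 0
  obtain ⟨k', l', -, hkl', v, hv, hv'⟩ := gliding b hb (1 / 2) hc N 0
  obtain ⟨M, hNM, hM⟩ := exists_bound v N
  obtain ⟨k'', l'', hK, hkl'', w, hw, hw'⟩ := gliding a ha (1 / 2) hc M (l + 1)
  refine no_q1 (before_of hN hv) (before_of hM hw)
    (before_of hN fun i hi => hNM.trans (hw i hi)) ?_ ?_ ?_ ?_ ?_ ?_
  · linarith [approx_le hu' (h1a k l)]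
  · linarith [approx_le hw' (h1a k'' l'')]
  · linarith [approx_le (approx_add hu' hv') (h2 k l k' l')]
  · rw [add_comm]
    linarith [approx_le (approx_add hw' hv') (h2 k'' l'' k' l')]
  · linarith [approx_ge hv' (h3 k' l' hkl')]
  · linarith [approx_ge (approx_add hu' hw') (h1 k l k'' l'' hkl (by omega) hkl'')]

/-- Sequences as in the second question do not exist. -/
lemma main2 (a b : ℕ → Sierpinski 𝕜 f) (ha : ∀ n, ‖a n‖ ≤ 1) (hb : ∀ n, ‖b n‖ ≤ 1)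
    (h1 : ∀ k l k' l', k < l → l < k' → k' < l' →
      ‖(1 : 𝕜) • (a k - a l) + (1 : 𝕜) • (a k' - a l')‖ ≤ 1)
    (h1' : ∀ k l k' l', k < l → l < k' → k' < l' →
      ‖(1 : 𝕜) • (b k - b l) + (1 : 𝕜) • (b k' - b l')‖ ≤ 1)
    (h2 : ∀ k l, k < l → ‖(1 : 𝕜) • (a k - a l)‖ ≤ 1)
    (h2' : ∀ k l, k < l → ‖(1 : 𝕜) • (b k - b l)‖ ≤ 1)
    (h3 : ∀ k l k' l', k < l → k' < l' →
      2 ≤ ‖(1 : 𝕜) • (a k - a l) + (1 : 𝕜) • (b k' - b l')‖) : False := by
  have hc : ‖(1 : 𝕜)‖ ≤ 1 := by rw [norm_one]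
  obtain ⟨k, l, -, hkl, u, hu, hu'⟩ := gliding a ha 1 hc 0 0
  obtain ⟨k', l', -, hkl', v, hv, hv'⟩ := gliding b hb 1 hc 0 0
  obtain ⟨N₀, -, hN₀⟩ := exists_bound u 0
  obtain ⟨N, hNN, hN⟩ := exists_bound v N₀
  obtain ⟨k₂, l₂, hK₂, hkl₂, w, hw, hw'⟩ := gliding a ha 1 hc N (l + 1)
  obtain ⟨k₃, l₃, hK₃, hkl₃, y, hy, hy'⟩ := gliding b hb 1 hc N (l' + 1)
  have hNu : ∀ i ∈ supp u, i < N := fun i hi => (hN₀ i hi).trans_le hNN
  refine no_q2 (u := u) (v := v) (w := w) (y := y) (before_of hNu hw) (before_of hNu hy)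
    (before_of hN hw) (before_of hN hy) ?_ ?_ ?_ ?_ ?_ ?_ ?_ ?_
  · linarith [approx_le hu' (h2 k l hkl)]
  · linarith [approx_le hv' (h2' k' l' hkl')]
  · linarith [approx_le hw' (h2 k₂ l₂ hkl₂)]
  · linarith [approx_le hy' (h2' k₃ l₃ hkl₃)]
  · linarith [approx_le (approx_add hu' hw') (h1 k l k₂ l₂ hkl (by omega) hkl₂)]
  · linarith [approx_le (approx_add hv' hy') (h1' k' l' k₃ l₃ hkl' (by omega) hkl₃)]
  · linarith [approx_ge (approx_add hu' hy') (h3 k l k₃ l₃ hkl hkl₃)]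
  · have := approx_ge (approx_add hw' hv') (h3 k₂ l₂ k' l' hkl₂ hkl')
    rw [add_comm] at this
    linarith

/-! ### The first question -/

/-- The unit vectors of `ℓ₁`. -/
noncomputable def el (𝕜 : Type) [RCLike 𝕜] (n : ℕ) : lp (fun _ : ℕ => 𝕜) 1 :=
  lp.single (E := fun _ : ℕ => 𝕜) 1 n 1

lemma el_apply (n i : ℕ) : el 𝕜 n i = if i = n then 1 else 0 := by
  rw [el, lp.single_apply, Pi.single_apply]

lemma norm_el (n : ℕ) : ‖el 𝕜 n‖ = 1 := by
  rw [el, lp.norm_single (by norm_num), norm_one]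

lemma sum_le_l1 (x : lp (fun _ : ℕ => 𝕜) 1) (s : Finset ℕ) : ∑ i ∈ s, ‖x i‖ ≤ ‖x‖ := by
  have := lp.sum_rpow_le_norm_rpow (p := 1) (by simp) x s
  simpa using this

lemma half_norm : ‖(1 / 2 : 𝕜)‖ = 1 / 2 := by rw [norm_div, norm_one, RCLike.norm_ofNat]

lemma l1_two {k l k' l' : ℕ} (h1 : k < l) (h2 : l < k') (h3 : k' < l') :
    2 ≤ ‖(1 / 2 : 𝕜) • (el 𝕜 k - el 𝕜 l) + (1 / 2 : 𝕜) • (el 𝕜 k' - el 𝕜 l')‖ := by
  refine le_trans (le_of_eq ?_) (sum_le_l1 _ {k, l, k', l'})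
  have e : ∀ i, ((1 / 2 : 𝕜) • (el 𝕜 k - el 𝕜 l) + (1 / 2 : 𝕜) • (el 𝕜 k' - el 𝕜 l')) i =
      1 / 2 * ((if i = k then 1 else 0) - (if i = l then 1 else 0)) +
      1 / 2 * ((if i = k' then 1 else 0) - (if i = l' then 1 else 0)) := by
    intro i
    simp only [lp.coeFn_add, lp.coeFn_smul, lp.coeFn_sub, Pi.add_apply, Pi.smul_apply,
      Pi.sub_apply, el_apply, smul_eq_mul]
  have n1 : k ≠ l := by omega
  have n2 : k ≠ k' := by omega
  have n3 : k ≠ l' := by omega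
  have n4 : l ≠ k' := by omega
  have n5 : l ≠ l' := by omega
  have n6 : k' ≠ l' := by omega
  rw [Finset.sum_insert (by simp [n1, n2, n3]), Finset.sum_insert (by simp [n4, n5]),
    Finset.sum_insert (by simp [n6]), Finset.sum_singleton, e, e, e, e]
  simp only [n1, n2, n3, n4, n5, n6, n1.symm, n2.symm, n3.symm, n4.symm, n5.symm, n6.symm,
    if_true, if_false, sub_zero, zero_sub, mul_one, mul_zero, add_zero, zero_add, mul_neg,
    norm_neg, half_norm, sub_self]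
  norm_num

lemma l1_one {k l : ℕ} (h1 : k < l) : 1 ≤ ‖(1 / 2 : 𝕜) • (el 𝕜 k - el 𝕜 l)‖ := by
  refine le_trans (le_of_eq ?_) (sum_le_l1 _ {k, l})
  have n1 : k ≠ l := by omega
  have e : ∀ i, ((1 / 2 : 𝕜) • (el 𝕜 k - el 𝕜 l)) i =
      1 / 2 * ((if i = k then 1 else 0) - (if i = l then 1 else 0)) := by
    intro i
    simp only [lp.coeFn_smul, lp.coeFn_sub, Pi.smul_apply,
      Pi.sub_apply, el_apply, smul_eq_mul]
  rw [Finset.sum_insert (by simp [n1]), Finset.sum_singleton, e, e]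
  simp only [n1, n1.symm, if_true, if_false, sub_zero, zero_sub, mul_one, mul_neg, norm_neg,
    half_norm]
  norm_num

lemma half_le (k l : ℕ) : ‖(1 / 2 : 𝕜) • (el 𝕜 k - el 𝕜 l)‖ ≤ 1 := by
  rw [norm_smul, half_norm]
  have := norm_sub_le (el 𝕜 k) (el 𝕜 l)
  rw [norm_el, norm_el] at this
  linarith

/-- No isometric copy of `ℓ₁ ⊕₀ ℓ₁`. -/
lemma question1 (T : (lp (fun _ : ℕ => 𝕜) 1 × lp (fun _ : ℕ => 𝕜) 1) →ₗᵢ[𝕜] Sierpinski 𝕜 f) :
    False := by
  have hT : ∀ x y : lp (fun _ : ℕ => 𝕜) 1, ‖T (x, y)‖ = max ‖x‖ ‖y‖ := fun x y => by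
    rw [T.norm_map, Prod.norm_def]
  have hA : ∀ k l k' l' : ℕ, (1 / 2 : 𝕜) • (T (el 𝕜 k, 0) - T (el 𝕜 l, 0)) +
      (1 / 2 : 𝕜) • (T (el 𝕜 k', 0) - T (el 𝕜 l', 0)) =
      T ((1 / 2 : 𝕜) • (el 𝕜 k - el 𝕜 l) + (1 / 2 : 𝕜) • (el 𝕜 k' - el 𝕜 l'), 0) := by
    intro k l k' l'
    rw [← map_sub, ← map_sub, ← map_smul, ← map_smul, ← map_add]
    congr 1
    ext1 <;> simp
  have hAB : ∀ k l k' l' : ℕ, (1 / 2 : 𝕜) • (T (el 𝕜 k, 0) - T (el 𝕜 l, 0)) +
      (1 / 2 : 𝕜) • (T (0, el 𝕜 k') - T (0, el 𝕜 l')) =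
      T ((1 / 2 : 𝕜) • (el 𝕜 k - el 𝕜 l), (1 / 2 : 𝕜) • (el 𝕜 k' - el 𝕜 l')) := by
    intro k l k' l'
    rw [← map_sub, ← map_sub, ← map_smul, ← map_smul, ← map_add]
    congr 1
    ext1 <;> simp
  have hB : ∀ k l : ℕ, (1 / 2 : 𝕜) • (T (0, el 𝕜 k) - T (0, el 𝕜 l)) =
      T (0, (1 / 2 : 𝕜) • (el 𝕜 k - el 𝕜 l)) := by
    intro k l
    rw [← map_sub, ← map_smul]
    congr 1
    ext1 <;> simp
  refine main1 (fun n => T (el 𝕜 n, 0)) (fun n => T (0, el 𝕜 n)) ?_ ?_ ?_ ?_ ?_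
  · intro n
    rw [hT, norm_el, norm_zero]
    norm_num
  · intro n
    rw [hT, norm_el, norm_zero]
    norm_num
  · intro k l k' l' h1 h2 h3
    rw [hA, hT]
    exact (l1_two h1 h2 h3).trans (le_max_left _ _)
  · intro k l k' l'
    rw [hAB, hT]
    exact max_le (half_le _ _) (half_le _ _)
  · intro k l h
    rw [hB, hT]
    exact (l1_one h).trans (le_max_right _ _)

/-! ### The second question -/

/-- The unit vectors of `c₀`. -/
noncomputable def de (𝕜 : Type) [RCLike 𝕜] (n : ℕ) : ZeroAtInftyContinuousMap ℕ 𝕜 where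
  toFun i := if i = n then 1 else 0
  continuous_toFun := continuous_of_discreteTopology
  zero_at_infty' := by
    rw [cocompact_eq_cofinite]
    refine tendsto_const_nhds.congr' ?_
    have : ∀ᶠ i in (cofinite : Filter ℕ), i ≠ n := (Set.finite_singleton n).compl_mem_cofinite
    filter_upwards [this] with i hi
    rw [if_neg hi]

lemma de_apply (n i : ℕ) : de 𝕜 n i = if i = n then 1 else 0 := rfl

lemma c0_norm_le (x : ZeroAtInftyContinuousMap ℕ 𝕜) {c : ℝ} (hc : 0 ≤ c)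
    (h : ∀ i, ‖x i‖ ≤ c) : ‖x‖ ≤ c := by
  rw [← ZeroAtInftyContinuousMap.norm_toBCF_eq_norm, BoundedContinuousFunction.norm_le hc]
  exact h

lemma c0_le_norm (x : ZeroAtInftyContinuousMap ℕ 𝕜) (i : ℕ) : ‖x i‖ ≤ ‖x‖ := by
  rw [← ZeroAtInftyContinuousMap.norm_toBCF_eq_norm]
  exact x.toBCF.norm_coe_le_norm i

lemma c0_one_le {k l : ℕ} (h : k < l) : 1 ≤ ‖de 𝕜 k - de 𝕜 l‖ := by
  refine le_trans (le_of_eq ?_) (c0_le_norm _ k)
  rw [ZeroAtInftyContinuousMap.sub_apply, de_apply, de_apply, if_pos rfl, if_neg (by omega),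
    sub_zero, norm_one]

lemma c0_le_one {k l : ℕ} (h : k < l) : ‖de 𝕜 k - de 𝕜 l‖ ≤ 1 := by
  refine c0_norm_le _ zero_le_one fun i => ?_
  rw [ZeroAtInftyContinuousMap.sub_apply, de_apply, de_apply]
  by_cases h1 : i = k
  · rw [if_pos h1, if_neg (by omega), sub_zero, norm_one]
  · rw [if_neg h1]
    by_cases h2 : i = l
    · rw [if_pos h2, zero_sub, norm_neg, norm_one]
    · rw [if_neg h2, sub_zero, norm_zero]
      exact zero_le_one

lemma c0_le_one' {k l k' l' : ℕ} (h1 : k < l) (h2 : l < k') (h3 : k' < l') :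
    ‖(de 𝕜 k - de 𝕜 l) + (de 𝕜 k' - de 𝕜 l')‖ ≤ 1 := by
  refine c0_norm_le _ zero_le_one fun i => ?_
  rw [ZeroAtInftyContinuousMap.add_apply, ZeroAtInftyContinuousMap.sub_apply,
    ZeroAtInftyContinuousMap.sub_apply, de_apply, de_apply, de_apply, de_apply]
  by_cases e1 : i = k
  · rw [if_pos e1, if_neg (by omega), if_neg (by omega), if_neg (by omega)]
    simp
  · rw [if_neg e1]
    by_cases e2 : i = l
    · rw [if_pos e2, if_neg (by omega), if_neg (by omega)]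
      simp
    · rw [if_neg e2]
      by_cases e3 : i = k'
      · rw [if_pos e3, if_neg (by omega)]
        simp
      · rw [if_neg e3]
        by_cases e4 : i = l'
        · rw [if_pos e4]
          simp
        · rw [if_neg e4]
          simp

lemma norm_de (n : ℕ) : ‖de 𝕜 n‖ ≤ 1 := by
  refine c0_norm_le _ zero_le_one fun i => ?_
  rw [de_apply]
  split_ifs
  · rw [norm_one]
  · rw [norm_zero]
    exact zero_le_one

/-- No isometric copy of `c₀ ⊕₁ c₀`. -/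
lemma question2 (T : WithLp 1 (ZeroAtInftyContinuousMap ℕ 𝕜 × ZeroAtInftyContinuousMap ℕ 𝕜)
    →ₗᵢ[𝕜] Sierpinski 𝕜 f) : False := by
  have hT : ∀ x y : ZeroAtInftyContinuousMap ℕ 𝕜, ‖T (WithLp.toLp 1 (x, y))‖ = ‖x‖ + ‖y‖ :=
    fun x y => by
      rw [T.norm_map, WithLp.prod_norm_eq_of_L1]
      rfl
  have hsub : ∀ x y x' y' : ZeroAtInftyContinuousMap ℕ 𝕜,
      (1 : 𝕜) • (T (WithLp.toLp 1 (x, y)) - T (WithLp.toLp 1 (x', y'))) =
        T (WithLp.toLp 1 (x - x', y - y')) := by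
    intro x y x' y'
    rw [one_smul, ← map_sub]
    rfl
  have hadd : ∀ x y x' y' : ZeroAtInftyContinuousMap ℕ 𝕜,
      T (WithLp.toLp 1 (x, y)) + T (WithLp.toLp 1 (x', y')) =
        T (WithLp.toLp 1 (x + x', y + y')) := by
    intro x y x' y'
    rw [← map_add]
    rfl
  refine main2 (fun n => T (WithLp.toLp 1 (de 𝕜 n, 0))) (fun n => T (WithLp.toLp 1 (0, de 𝕜 n)))
    ?_ ?_ ?_ ?_ ?_ ?_ ?_
  · intro n
    rw [hT, norm_zero, add_zero]
    exact norm_de n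
  · intro n
    rw [hT, norm_zero, zero_add]
    exact norm_de n
  · intro k l k' l' h1 h2 h3
    rw [hsub, hsub, hadd, hT, sub_self, add_zero, norm_zero, add_zero]
    exact c0_le_one' h1 h2 h3
  · intro k l k' l' h1 h2 h3
    rw [hsub, hsub, hadd, hT, sub_self, add_zero, norm_zero, zero_add]
    exact c0_le_one' h1 h2 h3
  · intro k l h
    rw [hsub, hT, sub_self, norm_zero, add_zero]
    exact c0_le_one h
  · intro k l h
    rw [hsub, hT, sub_self, norm_zero, zero_add]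
    exact c0_le_one h
  · intro k l k' l' h h'
    rw [hsub, hsub, hadd, hT, sub_self, add_zero, zero_add]
    linarith [c0_one_le (𝕜 := 𝕜) h, c0_one_le (𝕜 := 𝕜) h']

end

/-- `X` contains an isometric copy of `Z`. -/
def ContainsIsometrically (𝕜 : Type) [RCLike 𝕜] (Z X : Type) [NormedAddCommGroup Z]
    [NormedSpace 𝕜 Z] [NormedAddCommGroup X] [NormedSpace 𝕜 X] : Prop :=
  Nonempty (Z →ₗᵢ[𝕜] X)

/-- No Sierpiński space contains an isometric copy of `ℓ₁ ⊕₀ ℓ₁` or of `c₀ ⊕₁ c₀`. -/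
theorem result (𝕜 : Type) [RCLike 𝕜] (f : ℕ → ℚ) :
    ¬ ContainsIsometrically 𝕜 (lp (fun _ : ℕ => 𝕜) 1 × lp (fun _ : ℕ => 𝕜) 1) (Sierpinski 𝕜 f) ∧
    ¬ ContainsIsometrically 𝕜
      (WithLp 1 (ZeroAtInftyContinuousMap ℕ 𝕜 × ZeroAtInftyContinuousMap ℕ 𝕜))
      (Sierpinski 𝕜 f) :=
  ⟨fun ⟨T⟩ => question1 T, fun ⟨T⟩ => question2 T⟩

end Pool.Agent.Results.MP_adcce9_an.NoIsometricCopies
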